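import Pool.Agent.Helper37.TW3.Defs2

/-!
# Project TW3, block W2: the relations, with the options which satisfy the relations at all pairs
-/

set_option autoImplicit false

namespace Pool.Agent.TW3

open Polynomial NumberField IsDedekindDomain Pool.Agent.HG
open scoped Pointwise IntermediateField

section rel

variable {k L : Type} [Field k] [NumberField k] [Field L] [NumberField L] [Algebra k L]
  [IsGalois k L] {f : k[X]} {X : Ctx k L f}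

theorem len_of_fix90 {v : Pr k} {ρ : L} (h : X.F v ρ = ρ) : X.len v ρ = 1 :=
  Function.minimalPeriod_eq_one_iff_isFixedPt.2 h

theorem mem_R_of_fix90 {v : Pr k} {ρ : L} (hρ : ρ ∈ X.Ω) (h : X.F v ρ = ρ) : ρ ∈ X.R v := by
  classical
  obtain ⟨i, hi⟩ := X.rep_mem v ρ
  rw [Ctx.zpow_fixed h i] at hi
  unfold Ctx.R
  exact Finset.mem_image.2 ⟨ρ, hρ, hi⟩

variable {c : k} {S : Finset (Pr k)} {D : L → L → L} {α : Pr k → 𝓞 k} {t : Pr k → L}
  (h : DatB X c S D α t)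

include h

open scoped Classical in
/-- **The relation at two fixed roots.** -/
theorem rel90 {sg : Pr k → ℕ → L → L → ℤˣ} (hM : DatM X c S D t sg)
    {v : Pr k} (hv : v ∈ S) {ρ s : L} (hρΩ : ρ ∈ X.Ω) (hsΩ : s ∈ X.Ω) (hfρ : X.F v ρ = ρ)
    (hfs : X.F v s = s) (hst : ρ ≠ s) (hρt : ρ ≠ t v) (hst' : s ≠ t v) {e d : L}
    (he : e ∈ k⟮ρ, s⟯) (hd : d ∈ k⟮ρ, s⟯)
    (hz : D ρ s * Zp X S t ρ * Zp X S t s = e * d ^ 2) :
    (∏ q ∈ S.filter (fun q => minpoly k (t q) = minpoly k ρ),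
        X.ch v (X.len v ρ) (aeval ρ (X.B q (t q)))) *
      (∏ q ∈ S.filter (fun q => minpoly k (t q) = minpoly k s),
        X.ch v (X.len v s) (aeval s (X.B q (t q)))) =
      X.chE v 1 e * sg v 1 ρ s := by
  obtain ⟨p, hp, hpM, hpv⟩ := ((h.hS v).1 hv).1
  have ho := X.isOver hp hpM hpv
  have h2 := X.two_unit hp hpM hpv
  have hq := X.nm_odd hp hpM hpv
  have hlρ := len_of_fix90 (X := X) hfρ
  have hls := len_of_fix90 (X := X) hfs
  have hdρ : X.len v ρ ∣ 1 := by rw [hlρ]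
  have hds : X.len v s ∣ 1 := by rw [hls]
  have hqn : Odd (nm v ^ 1) := hq.pow
  have hFρ : (X.F v ^ 1) ρ = ρ := X.fix_of_dvd hdρ
  have hFs : (X.F v ^ 1) s = s := X.fix_of_dvd hds
  -- the factor of `D`
  obtain ⟨a, ha⟩ := hM.even p v hp hpM hpv hv ρ hρΩ s hsΩ hst hρt hst'
  have hFp : ∀ a : ℤ, (X.F v ^ 1) ((p : L) ^ a) = (p : L) ^ a := fun a => by
    rw [map_zpow₀, map_natCast]
  have hDF : (X.F v ^ 1) (D ρ s * (p : L) ^ (2 * a)) = D ρ s * (p : L) ^ (2 * a) := by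
    rw [map_mul, h.D_fixed hρΩ hsΩ hst hFρ hFs, hFp]
  have hDU := X.un_of_fixed ha hDF
  have hD : eul (X.P v) (nm v ^ 1) (D ρ s * (p : L) ^ (2 * a)) = sg v 1 ρ s :=
    hM.sign p v hp hpM hpv hv ρ hρΩ s hsΩ hst hρt hst' 1 one_pos hFρ hFs a ha
  -- the Thue factors
  obtain ⟨hU1, hC1⟩ := h.ch_Zp hv hρΩ hρt hdρ
  obtain ⟨hU2, hC2⟩ := h.ch_Zp hv hsΩ hst' hds
  rw [hlρ, Nat.div_one, pow_one] at hC1
  rw [hls, Nat.div_one, pow_one] at hC2
  rw [hlρ, hls]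
  -- the product
  have hp0 : (p : L) ≠ 0 := by exact_mod_cast hp.ne_zero
  have hz0 : D ρ s * Zp X S t ρ * Zp X S t s ≠ 0 := h.z_ne hρΩ hsΩ hst
  have hd0 : d ≠ 0 := by
    rintro rfl
    rw [zero_pow two_ne_zero, mul_zero] at hz
    exact hz0 hz
  have he1 : e * (d * (p : L) ^ a) ^ 2 = (D ρ s * (p : L) ^ (2 * a)) * Zp X S t ρ * Zp X S t s := by
    have e1 : (p : L) ^ (2 * a) = ((p : L) ^ a) ^ 2 := by
      rw [← zpow_natCast, ← zpow_mul, mul_comm]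
      rfl
    rw [e1, mul_pow, ← mul_assoc, ← hz]
    ring
  have hUz := (hDU.mul hU1).mul hU2
  have hE := X.chE_eq (v := v) (n := 1) h2 hq (fixed_of_mem_adjoin he hFρ hFs)
    (mul_ne_zero hd0 (zpow_ne_zero a hp0)) (by
      rw [map_mul, fixed_of_mem_adjoin hd hFρ hFs, hFp]) (by rw [he1]; exact hUz.1)
  rw [he1, X.ch_eq, eul_mul h2 hqn (hDU.mul hU1) hU2, eul_mul h2 hqn hDU hU1, hD] at hE
  rw [X.ch_eq] at hC1 hC2
  rw [← hC1, ← hC2, hE]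
  generalize sg v 1 ρ s = x
  generalize eul (X.P v) (nm v ^ 1) (Zp X S t ρ) = y
  generalize eul (X.P v) (nm v ^ 1) (Zp X S t s) = w
  have hx := Int.units_mul_self x
  calc y * w = (x * x) * (y * w) := by rw [hx, one_mul]
    _ = x * y * w * x := by
      simp only [mul_comm, mul_left_comm]

end rel

section final

variable {k L : Type} [Field k] [NumberField k] [Field L] [NumberField L] [Algebra k L]
  [IsGalois k L] {f : k[X]} (X : Ctx k L f)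

open scoped Classical in
theorem badT_of90 (hm : 0 < X.m) (hfin : {v : Pr k | ¬ Gd X.M v}.Finite) (ι : Type)
    (Vι : Pr k → L → Finset ι) (SG : Pr k → ι → ℕ → L → L → ℤˣ) (hh : L → L → L)
    (S : Finset (Pr k)) (hS : ∀ v ∈ S, Gd X.M v)
    (t : Pr k → L) (u : Pr k → ℤˣ) (i : Pr k → ι) (hi : ∀ v ∈ S, i v ∈ Vι v (t v))
    (ht : ∀ v ∈ S, t v ∈ X.Ω ∧ X.F v (t v) = t v)
    (h : ∀ v ∈ S, ∀ ρ ∈ X.R v, ρ ≠ t v →
      ∏ q ∈ S.filter (fun q => q ≠ v ∧ X.cmp hm (t q) = X.cmp hm ρ),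
        X.ch v (X.len v ρ) (aeval ρ (X.B q (t q))) = ggM X hm SG hh v ⟨(t v, u v), i v⟩ ρ)
    (hrel : ∀ v ∈ S, RelP X SG hh v ⟨(t v, u v), i v⟩) :
    BadT (cdW X hm hfin ι Vι SG hh) S (fun v => ⟨(t v, u v), i v⟩) := by
  have hpf : Pool.Agent.Helper99.HG.pf (cdW X hm hfin ι Vι SG hh) S = S := by
    unfold Pool.Agent.Helper99.HG.pf
    refine Finset.filter_true_of_mem fun v hv => ?_
    intro h1
    exact (hfin.mem_toFinset.1 h1) (hS v hv)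
  unfold BadT
  rw [hpf]
  intro (v : Pr k) hv
  refine ⟨?_, ?_⟩
  · have hmem : (⟨(t v, u v), i v⟩ : Σ _ : L × ℤˣ, ι) ∈
        (X.Fx v ×ˢ (Finset.univ : Finset ℤˣ)).sigma fun o => Vι v o.1 := by
      refine Finset.mem_sigma.2 ⟨Finset.mem_product.2 ⟨?_, Finset.mem_univ _⟩, hi v hv⟩
      exact Finset.mem_filter.2 (ht v hv)
    exact (@Finset.mem_filter (Σ _ : L × ℤˣ, ι) (fun o => RelP X SG hh v o)
      (fun a => Classical.propDecidable _) _ _).2 ⟨hmem, hrel v hv⟩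
  intro j (ρ : L) hρ
  obtain ⟨hρt, hρ2⟩ := Finset.mem_erase.1 hρ
  have hρ3 : ρ ∈ X.R v ∧ X.cmp hm ρ = j := by
    exact (@Finset.mem_filter L (fun ρ => X.cmp hm ρ = j) (fun a => instDecidableEqFin _ _ _)
      (X.R v) ρ).1 hρ2
  obtain ⟨hρR, hρj⟩ := hρ3
  subst hρj
  refine Eq.trans ?_ (h v hv ρ hρR hρt)
  refine Finset.prod_congr ?_ fun _ _ => rfl
  refine Finset.ext fun (q : Pr k) => ⟨fun h1 => ?_, fun h1 => ?_⟩
  · exact (@Finset.mem_filter _ _ _ _ _).2 ((@Finset.mem_filter _ _ _ _ _).1 h1)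
  · exact (@Finset.mem_filter _ _ _ _ _).2 ((@Finset.mem_filter _ _ _ _ _).1 h1)

/-- **BLOCK W2.** -/
theorem g1w : StmtG1w := by
  intro hsel k L _ _ _ _ _ _ f X h4 hm hfin ι Vι SG
  classical
  -- the finite lists of classes
  choose Fs hFs1 hFs2 using fun θ θ' : L => hsel k L k⟮θ, θ'⟯ X.M X.hM
  set FF : Finset L := insert 1 ((X.Ω ×ˢ X.Ω).biUnion fun x => Fs x.1 x.2) with hFF
  set hh : (X.Ω → X.Ω → FF) → L → L → L := fun h a b =>
    if hab : a ∈ X.Ω ∧ b ∈ X.Ω then (h ⟨a, hab.1⟩ ⟨b, hab.2⟩ : L) else 1 with hhh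
  refine ⟨X.Ω → X.Ω → FF, inferInstance, hh, ?_⟩
  intro c S D t i hM hi
  obtain ⟨α, hdat⟩ := hM.exists_datB
  -- the classes
  have he : ∀ θ θ' : L, ∃ e : L, e ∈ FF ∧ (θ ∈ X.Ω → θ' ∈ X.Ω → θ ≠ θ' → e ∈ k⟮θ, θ'⟯ ∧
      ∃ d ∈ k⟮θ, θ'⟯, D θ θ' * Zp X S t θ * Zp X S t θ' = e * d ^ 2) := by
    intro θ θ'
    by_cases h1 : θ ∈ X.Ω ∧ θ' ∈ X.Ω ∧ θ ≠ θ'
    · obtain ⟨h1, h2, h3⟩ := h1
      obtain ⟨e, he, d, hd, hz⟩ := hFs2 θ θ' _ (hdat.z_mem h1 h2 h3) (hdat.z_ne h1 h2 h3)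
        (hdat.ev_z h1 h2 h3)
      exact ⟨e, Finset.mem_insert_of_mem (Finset.mem_biUnion.2 ⟨(θ, θ'),
        Finset.mem_product.2 ⟨h1, h2⟩, he⟩), fun _ _ _ => ⟨(hFs1 θ θ' e he).1, d, hd, hz⟩⟩
    · exact ⟨1, Finset.mem_insert_self _ _, fun h2 h3 h4 => absurd ⟨h2, h3, h4⟩ h1⟩
  choose e heF he using he
  have hhe : ∀ {a b : L}, a ∈ X.Ω → b ∈ X.Ω →
      hh (fun a b => ⟨e a b, heF a b⟩) a b = e a b := by
    intro a b ha hb
    rw [hhh]
    exact dif_pos ⟨ha, hb⟩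
  -- the products
  set Y : Pr k → L → ℤˣ := fun v ρ => ∏ q ∈ S.filter (fun q => minpoly k (t q) = minpoly k ρ),
    X.ch v (X.len v ρ) (aeval ρ (X.B q (t q))) with hY
  -- the first factor
  have hfac : ∀ v ∈ S, ∀ ρ ∈ X.R v, ρ ≠ t v →
      Y v ρ = gfac X SG (hh fun a b => ⟨e a b, heF a b⟩) v
        ⟨(t v, Y v (X.st v (t v))), i v⟩ ρ := by
    intro v hv ρ hρR hρt
    have hρΩ := X.R_subset v hρR
    unfold gfac
    split_ifs with h1
    · have h1' : ρ = X.st v (t v) := h1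
      rw [h1']
    · have hst := X.st_mem h4 (hdat.t_fix v hv)
      have hsΩ := X.R_subset v (Finset.mem_erase.1 hst).2
      obtain ⟨he1, d, hd, hz⟩ := he ρ (X.st v (t v)) hρΩ hsΩ h1
      have h5 : hh (fun a b => ⟨e a b, heF a b⟩) ρ (X.st v (t v)) = e ρ (X.st v (t v)) :=
        hhe hρΩ hsΩ
      change _ = X.chE v _ (hh (fun a b => ⟨e a b, heF a b⟩) ρ (X.st v (t v))) * _ * _
      rw [h5]
      exact hM.rel13 hdat h4 hv (Finset.mem_erase.2 ⟨hρt, hρR⟩) h1 he1 hd hz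
  refine ⟨fun a b => ⟨e a b, heF a b⟩, fun v => Y v (X.st v (t v)), ?_⟩
  refine badT_of90 X hm hfin ι Vι SG _ S (fun v hv => ((hdat.hS v).1 hv).1) t _ i hi
    (fun v hv => ⟨hdat.t_mem v hv, hdat.t_fix v hv⟩) ?_ ?_
  · intro v hv ρ hρR hρt
    have hρΩ := X.R_subset v hρR
    have htΩ := hdat.t_mem v hv
    -- the product over `q ≠ v`
    have hprod : ∏ q ∈ S.filter (fun q => q ≠ v ∧ X.cmp hm (t q) = X.cmp hm ρ),
        X.ch v (X.len v ρ) (aeval ρ (X.B q (t q))) = Y v ρ *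
        (if X.cmp hm (t v) = X.cmp hm ρ then X.ch v (X.len v ρ) (aeval ρ (X.B v (t v))) else 1) := by
      have h1 : S.filter (fun q => q ≠ v ∧ X.cmp hm (t q) = X.cmp hm ρ) =
          (S.filter (fun q => minpoly k (t q) = minpoly k ρ)).erase v := by
        ext q
        simp only [Finset.mem_filter, Finset.mem_erase]
        constructor
        · rintro ⟨h1, h2, h3⟩
          exact ⟨h2, h1, (X.cmp_eq hm (hdat.t_mem q h1) hρΩ).1 h3⟩
        · rintro ⟨h2, h1, h3⟩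
          exact ⟨h1, h2, (X.cmp_eq hm (hdat.t_mem q h1) hρΩ).2 h3⟩
      rw [h1]
      split_ifs with h2
      · have h3 : v ∈ S.filter (fun q => minpoly k (t q) = minpoly k ρ) :=
          Finset.mem_filter.2 ⟨hv, (X.cmp_eq hm htΩ hρΩ).1 h2⟩
        rw [hY]
        dsimp only
        rw [← Finset.prod_erase_mul _ _ h3, mul_assoc, Int.units_mul_self, mul_one]
      · have h3 : v ∉ S.filter (fun q => minpoly k (t q) = minpoly k ρ) := fun h3 =>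
          h2 ((X.cmp_eq hm htΩ hρΩ).2 (Finset.mem_filter.1 h3).2)
        rw [Finset.erase_eq_of_notMem h3, mul_one]
    rw [hprod, hfac v hv ρ hρR hρt]
    rfl
  · intro v hv ρ hρΩ ρ' hρ'Ω hfρ hfρ' hne hρt hρ't
    have hρt1 : ρ ≠ t v := hρt
    have hρ't1 : ρ' ≠ t v := hρ't
    rw [← hfac v hv ρ (mem_R_of_fix90 hρΩ hfρ) hρt1, ← hfac v hv ρ' (mem_R_of_fix90 hρ'Ω hfρ') hρ't1]
    obtain ⟨he1, d, hd, hz⟩ := he ρ ρ' hρΩ hρ'Ω hne
    change _ = X.chE v 1 (hh (fun a b => ⟨e a b, heF a b⟩) ρ ρ') * _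
    rw [hhe hρΩ hρ'Ω]
    exact rel90 hdat hM hv hρΩ hρ'Ω hfρ hfρ' hne hρt1 hρ't1 he1 hd hz

end final

end Pool.Agent.TW3
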